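import Mathlib

open MvPolynomial

namespace Pool.Agent.Results.MP_f9b6b5_al.NoBinomial

section Defs

variable {k : Type} [Field k] {n : ℕ}

/-- homogeneous ideal -/
def Homog (I : Ideal (MvPolynomial (Fin n) k)) : Prop :=
  ∀ p ∈ I, ∀ d, homogeneousComponent d p ∈ I

/-- symmetric ideal -/
def Symm (I : Ideal (MvPolynomial (Fin n) k)) : Prop :=
  ∀ σ : Equiv.Perm (Fin n), I.map (rename σ) = I

/-- invariant up to scalars -/
def KSym (f : MvPolynomial (Fin n) k) : Prop :=
  f ≠ 0 ∧ ∀ σ : Equiv.Perm (Fin n), ∃ c : k, rename σ f = c • f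

/-- irredundant homogeneous generating set -/
def MinGen (I : Ideal (MvPolynomial (Fin n) k)) (G : Set (MvPolynomial (Fin n) k)) : Prop :=
  (∀ g ∈ G, ∃ d, g.IsHomogeneous d) ∧ Ideal.span G = I ∧ ∀ g ∈ G, Ideal.span (G \ {g}) ≠ I

/-- generating set of the least possible cardinality -/
def MinCard (I : Ideal (MvPolynomial (Fin n) k)) (G : Finset (MvPolynomial (Fin n) k)) : Prop :=
  Ideal.span (G : Set (MvPolynomial (Fin n) k)) = I ∧
    ∀ G' : Finset (MvPolynomial (Fin n) k),
      Ideal.span (G' : Set (MvPolynomial (Fin n) k)) = I → G.card ≤ G'.card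

/-- dimension of the degree `d` part of `I` -/
noncomputable def hilb (I : Ideal (MvPolynomial (Fin n) k)) (d : ℕ) : ℕ :=
  Module.finrank k ↥(I.restrictScalars k ⊓ homogeneousSubmodule (Fin n) k d)

end Defs

variable {k : Type} [Field k]

abbrev R (k : Type) [Field k] := MvPolynomial (Fin 3) k

attribute [local instance] MvPolynomial.gradedAlgebra

theorem hc_mul_right (A g : R k) {i : ℕ} (hg : g.IsHomogeneous i) (m : ℕ) :
    homogeneousComponent m (A * g) =
      if i ≤ m then homogeneousComponent (m - i) A * g else 0 := by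
  have := DirectSum.coe_decompose_mul_of_right_mem (homogeneousSubmodule (Fin 3) k) (a := A)
    (b := g) (i := i) m hg
  rw [← decomposition.decompose'_apply, ← decomposition.decompose'_apply]
  exact this

theorem hc_mul_left (A g : R k) {i : ℕ} (hg : g.IsHomogeneous i) (m : ℕ) :
    homogeneousComponent m (g * A) =
      if i ≤ m then g * homogeneousComponent (m - i) A else 0 := by
  rw [mul_comm g A, hc_mul_right A g hg, mul_comm]

theorem span_two (S : Set (R k)) (W : Submodule k (R k))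
    (hS : ∀ s ∈ S, homogeneousComponent 0 s = 0 ∧ homogeneousComponent 1 s = 0 ∧
      homogeneousComponent 2 s ∈ W) (p : R k) (hp : p ∈ Ideal.span S) :
    homogeneousComponent 0 p = 0 ∧ homogeneousComponent 1 p = 0 ∧
      homogeneousComponent 2 p ∈ W := by
  induction hp using Submodule.span_induction with
  | mem s hs => exact hS s hs
  | zero => simp
  | add a b _ _ ha hb =>
    refine ⟨?_, ?_, ?_⟩
    · rw [map_add, ha.1, hb.1, add_zero]
    · rw [map_add, ha.2.1, hb.2.1, add_zero]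
    · rw [map_add]; exact W.add_mem ha.2.2 hb.2.2
  | smul r a _ ha =>
    rw [smul_eq_mul]
    induction r using MvPolynomial.induction_on' with
    | add r s hr hs =>
      rw [add_mul]
      refine ⟨?_, ?_, ?_⟩
      · rw [map_add, hr.1, hs.1, add_zero]
      · rw [map_add, hr.2.1, hs.2.1, add_zero]
      · rw [map_add]; exact W.add_mem hr.2.2 hs.2.2
    | monomial d c =>
      have hm := isHomogeneous_monomial (σ := Fin 3) c (d := d) rfl
      simp only [hc_mul_left a _ hm]
      obtain ⟨h0, h1, h2⟩ := ha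
      rcases Nat.eq_zero_or_pos d.degree with h | h
      · have hd : d = 0 := (Finsupp.degree_eq_zero_iff d).1 h
        subst hd
        simp only [h, le_refl, zero_le, if_true, Nat.sub_zero, h0, h1, mul_zero, true_and]
        rw [← C_apply, ← smul_eq_C_mul]
        exact W.smul_mem c h2
      · refine ⟨by rw [if_neg (by omega)], ?_, ?_⟩
        · split_ifs with h'
          · rw [show 1 - d.degree = 0 by omega, h0, mul_zero]
          · rfl
        · split_ifs with h'
          · rcases (show 2 - d.degree = 0 ∨ 2 - d.degree = 1 by omega) with e | e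
            · rw [e, h0, mul_zero]; exact W.zero_mem
            · rw [e, h1, mul_zero]; exact W.zero_mem
          · exact W.zero_mem

noncomputable def g1 : R k := (X 0 + X 1 + X 2) * (X 0 - X 1)

noncomputable def g2 : R k := (X 0 + X 1 + X 2) * (X 1 - X 2)

theorem hX (i : Fin 3) : (X i : R k).IsHomogeneous 1 := isHomogeneous_X k i

theorem hg1 : (g1 : R k).IsHomogeneous 2 :=
  (((hX 0).add (hX 1)).add (hX 2)).mul ((hX 0).sub (hX 1))

theorem hg2 : (g2 : R k).IsHomogeneous 2 :=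
  (((hX 0).add (hX 1)).add (hX 2)).mul ((hX 1).sub (hX 2))

noncomputable def II (k : Type) [Field k] : Ideal (R k) := Ideal.span {g1, g2}

theorem g1_mem : g1 ∈ II k := Ideal.subset_span (by simp)

theorem g2_mem : g2 ∈ II k := Ideal.subset_span (by simp)

theorem homogI : Homog (II k) := by
  intro p hp d
  obtain ⟨A, B, rfl⟩ := Ideal.mem_span_pair.1 hp
  rw [map_add, hc_mul_right A _ hg1, hc_mul_right B _ hg2]
  split_ifs
  · exact add_mem (Ideal.mul_mem_left _ _ g1_mem) (Ideal.mul_mem_left _ _ g2_mem)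
  · simp

theorem diff_mem (i j : Fin 3) : (X 0 + X 1 + X 2) * (X i - X j) ∈ II k := by
  have h1 := g1_mem (k := k)
  have h2 := g2_mem (k := k)
  have e : ∀ i : Fin 3, (X 0 + X 1 + X 2) * (X i - X 1) ∈ II k := by
    intro i
    fin_cases i
    · exact h1
    · simp
    · have := neg_mem h2
      convert this using 1
      simp only [g2, Fin.reduceFinMk]; ring
  have := sub_mem (e i) (e j)
  convert this using 1
  ring

theorem ren_sum (σ : Equiv.Perm (Fin 3)) :
    (X (σ 0) + X (σ 1) + X (σ 2) : R k) = X 0 + X 1 + X 2 := by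
  have := Equiv.sum_comp σ (fun i => (X i : R k))
  simpa only [Fin.sum_univ_three] using this

theorem ren_mem (σ : Equiv.Perm (Fin 3)) (p : R k) (hp : p ∈ II k) : rename σ p ∈ II k := by
  obtain ⟨A, B, rfl⟩ := Ideal.mem_span_pair.1 hp
  rw [map_add, map_mul, map_mul]
  refine add_mem (Ideal.mul_mem_left _ _ ?_) (Ideal.mul_mem_left _ _ ?_)
  · simp only [g1, map_mul, map_add, map_sub, rename_X, ren_sum]
    exact diff_mem _ _
  · simp only [g2, map_mul, map_add, map_sub, rename_X, ren_sum]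
    exact diff_mem _ _

theorem symmI : Symm (II k) := by
  intro σ
  apply le_antisymm
  · rw [Ideal.map_le_iff_le_comap]
    exact fun p hp => ren_mem σ p hp
  · intro p hp
    have : p = rename σ (rename (σ⁻¹ : Equiv.Perm (Fin 3)) p) := by
      rw [rename_rename]
      have : (σ : Fin 3 → Fin 3) ∘ (σ⁻¹ : Equiv.Perm (Fin 3)) = id := by
        funext i; simp
      rw [this, rename_id_apply]
    rw [this]
    exact Ideal.mem_map_of_mem _ (ren_mem _ p hp)

theorem lowI (p : R k) (hp : p ∈ II k) :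
    homogeneousComponent 0 p = 0 ∧ homogeneousComponent 1 p = 0 ∧
      homogeneousComponent 2 p ∈ Submodule.span k {g1, g2} := by
  refine span_two _ _ ?_ p hp
  rintro s (rfl | rfl)
  · simp only [homogeneousComponent_of_mem (hg1 (k := k))]
    exact ⟨by simp, by simp, by simpa using Submodule.subset_span (by simp)⟩
  · simp only [homogeneousComponent_of_mem (hg2 (k := k))]
    exact ⟨by simp, by simp, by simpa using Submodule.subset_span (by simp)⟩

theorem indep2 (a b : k) (h : a • (g1 : R k) + b • g2 = 0) : a = 0 ∧ b = 0 := by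
  have e : ∀ x y z : k, a * ((x + y + z) * (x - y)) + b * ((x + y + z) * (y - z)) = 0 := by
    intro x y z
    have := congrArg (eval ![x, y, z]) h
    simpa [g1, g2, smul_eval] using this
  exact ⟨by linear_combination e 1 0 0, by linear_combination -e 0 0 1⟩

theorem ksym_two [CharZero k] (f : R k) (hf : f ∈ II k) (hk : KSym f) :
    homogeneousComponent 2 f = 0 := by
  obtain ⟨a, b, hab⟩ := Submodule.mem_span_pair.1 (lowI f hf).2.2
  obtain ⟨c, hc⟩ := hk.2 (Equiv.swap 0 1)
  obtain ⟨d, hd⟩ := hk.2 (Equiv.swap 1 2)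
  have hc' := congrArg (homogeneousComponent 2) hc
  have hd' := congrArg (homogeneousComponent 2) hd
  rw [← rename_homogeneousComponent, map_smul, ← hab] at hc' hd'
  have s1 : Equiv.swap (0 : Fin 3) 1 2 = 2 := by decide
  have s2 : Equiv.swap (1 : Fin 3) 2 0 = 0 := by decide
  have e1 : (b - a - c * a) • (g1 : R k) + (b - c * b) • g2 = 0 := by
    rw [← sub_eq_zero] at hc'
    rw [← hc']
    simp only [g1, g2, map_add, rename_C, map_mul, map_sub, rename_X, Equiv.swap_apply_left,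
      Equiv.swap_apply_right, s1, smul_eq_C_mul]
    ring
  have e2 : (a - d * a) • (g1 : R k) + (a - b - d * b) • g2 = 0 := by
    rw [← sub_eq_zero] at hd'
    rw [← hd']
    simp only [g1, g2, map_add, rename_C, map_mul, map_sub, rename_X, Equiv.swap_apply_left,
      Equiv.swap_apply_right, s2, smul_eq_C_mul]
    ring
  obtain ⟨h1, h2⟩ := indep2 _ _ e1
  obtain ⟨h3, h4⟩ := indep2 _ _ e2
  have h5 : a * (b - 2 * a) * b = 0 := by linear_combination a * b * h1 - a * a * h2
  have h6 : a * (a - 2 * b) * b = 0 := by linear_combination a * b * h4 - b * b * h3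
  have hab0 : a = 0 ∧ b = 0 := by
    by_cases ha : a = 0
    · by_cases hb : b = 0
      · exact ⟨ha, hb⟩
      · exfalso
        apply hb
        rw [ha] at h1
        linear_combination h1
    · exfalso
      by_cases hb : b = 0
      · apply ha
        rw [hb] at h4
        linear_combination h4
      · have h7 := (mul_eq_zero.1 ((mul_eq_zero.1 h5).resolve_right hb)).resolve_left ha
        have h8 := (mul_eq_zero.1 ((mul_eq_zero.1 h6).resolve_right hb)).resolve_left ha
        apply ha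
        linear_combination (-2 / 3 : k) * h7 - (1 / 3 : k) * h8
  rw [← hab, hab0.1, hab0.2]
  simp

theorem minGen_ok [CharZero k] (G : Set (R k)) (hG : MinGen (II k) G) (f : R k) (hf : f ∈ G) :
    ¬ KSym f := by
  intro hk
  obtain ⟨hh, hs, hm⟩ := hG
  have hGI : ∀ g ∈ G, g ∈ II k := fun g hg => hs ▸ Ideal.subset_span hg
  have hf2 := ksym_two f (hGI f hf) hk
  apply hm f hf
  apply le_antisymm
  · rw [← hs]; exact Ideal.span_mono Set.sdiff_subset
  · have key : ∀ p ∈ II k, homogeneousComponent 2 p ∈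
        (Ideal.span (G \ {f})).restrictScalars k := by
      intro p hp
      rw [← hs] at hp
      refine (span_two G _ (fun s hsG => ⟨(lowI s (hGI s hsG)).1, (lowI s (hGI s hsG)).2.1, ?_⟩)
        p hp).2.2
      by_cases e : s = f
      · rw [e, hf2]; exact zero_mem _
      · obtain ⟨d, hd⟩ := hh s hsG
        rw [homogeneousComponent_of_mem hd]
        split_ifs
        · exact Ideal.subset_span ⟨hsG, e⟩
        · exact zero_mem _
    have k1 := key g1 g1_mem
    have k2 := key g2 g2_mem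
    rw [homogeneousComponent_eq_self hg1] at k1
    rw [homogeneousComponent_eq_self hg2] at k2
    refine Ideal.span_le.2 ?_
    rintro s (rfl | rfl)
    · exact k1
    · exact k2

theorem minCard_ok [CharZero k] (G : Finset (R k)) (hG : MinCard (II k) G) (f : R k)
    (hf : f ∈ G) : ¬ KSym f := by
  classical
  intro hk
  obtain ⟨hs, hm⟩ := hG
  have hGI : ∀ g ∈ G, g ∈ II k := fun g hg => hs ▸ Ideal.subset_span hg
  have hf2 := ksym_two f (hGI f hf) hk
  have hc : G.card ≤ 2 := (hm {g1, g2} (by simp [II])).trans Finset.card_le_two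
  have hc1 : (G.erase f).card ≤ 1 := by rw [Finset.card_erase_of_mem hf]; omega
  obtain ⟨w, hw⟩ := Finset.card_le_one_iff_subset_singleton.1 hc1
  have key : ∀ p ∈ II k, homogeneousComponent 2 p ∈
      Submodule.span k {homogeneousComponent 2 w} := by
    intro p hp
    rw [← hs] at hp
    refine (span_two G _ (fun s hsG => ⟨(lowI s (hGI s hsG)).1, (lowI s (hGI s hsG)).2.1, ?_⟩)
      p hp).2.2
    by_cases e : s = f
    · rw [e, hf2]; exact zero_mem _
    · have := Finset.mem_singleton.1 (hw (Finset.mem_erase.2 ⟨e, hsG⟩))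
      rw [this]
      exact Submodule.mem_span_singleton_self _
  have k1 := key g1 g1_mem
  have k2 := key g2 g2_mem
  rw [homogeneousComponent_eq_self hg1] at k1
  rw [homogeneousComponent_eq_self hg2] at k2
  obtain ⟨a, ha⟩ := Submodule.mem_span_singleton.1 k1
  obtain ⟨b, hb⟩ := Submodule.mem_span_singleton.1 k2
  have e := indep2 b (-a) (by rw [← ha, ← hb, smul_smul, smul_smul, ← add_smul]; simp [mul_comm])
  have e' := indep2 (1 : k) 0 (by rw [← ha, neg_eq_zero.1 e.2]; simp)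
  exact one_ne_zero e'.1

instance fin_part (I : Ideal (R k)) (d : ℕ) :
    Module.Finite k ↥(I.restrictScalars k ⊓ homogeneousSubmodule (Fin 3) k d) :=
  have : Module.Finite k ↥(homogeneousSubmodule (Fin 3) k d) :=
    Module.Finite.iff_fg.2 (homogeneousSubmodule_fg (Fin 3) k d)
  Submodule.finiteDimensional_of_le inf_le_right

theorem hilb_le (I : Ideal (R k)) (d m : ℕ) (v : Fin m → R k)
    (h : ∀ p ∈ I, homogeneousComponent d p ∈ Submodule.span k (Set.range v)) :
    hilb I d ≤ m := by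
  have : I.restrictScalars k ⊓ homogeneousSubmodule (Fin 3) k d ≤
      Submodule.span k (Set.range v) := by
    intro p hp
    have := h p hp.1
    rwa [homogeneousComponent_eq_self hp.2] at this
  have : Module.Finite k ↥(Submodule.span k (Set.range v)) :=
    Module.Finite.span_of_finite k (Set.finite_range v)
  have h2 := Submodule.finrank_mono ‹_ ≤ _›
  have h3 := finrank_range_le_card (R := k) v
  simp only [Fintype.card_fin, Set.finrank] at h3
  exact h2.trans h3

theorem le_hilb (I : Ideal (R k)) (d m : ℕ) (v : Fin m → R k) (hv : ∀ i, v i ∈ I)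
    (hd : ∀ i, (v i).IsHomogeneous d)
    (h : ∀ c : Fin m → k, (∀ x : Fin 3 → k, ∑ i, c i * eval x (v i) = 0) → ∀ i, c i = 0) :
    m ≤ hilb I d := by
  let w : Fin m → ↥(I.restrictScalars k ⊓ homogeneousSubmodule (Fin 3) k d) :=
    fun i => ⟨v i, hv i, hd i⟩
  have : LinearIndependent k w := by
    rw [Fintype.linearIndependent_iff]
    intro c hc
    refine h c fun x => ?_
    have := congrArg (fun p => eval x (p : R k)) (congrArg Subtype.val hc)
    simpa [w, smul_eval] using this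
  simpa [hilb] using this.fintype_card_le_finrank

theorem hI0 : hilb (II k) 0 = 0 :=
  Nat.le_zero.1 (hilb_le _ 0 0 ![] fun p hp => by rw [(lowI p hp).1]; exact zero_mem _)

theorem hI1 : hilb (II k) 1 = 0 :=
  Nat.le_zero.1 (hilb_le _ 1 0 ![] fun p hp => by rw [(lowI p hp).2.1]; exact zero_mem _)

theorem hI2 : hilb (II k) 2 ≤ 2 :=
  hilb_le _ 2 2 ![g1, g2] fun p hp => by
    have := (lowI p hp).2.2
    rwa [show Set.range ![(g1 : R k), g2] = {g1, g2} by simp [Set.pair_comm]]

theorem hI2' : 1 ≤ hilb (II k) 2 := by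
  refine le_hilb _ 2 1 ![g1] (by simpa using g1_mem) (by simpa using hg1) fun c hc i => ?_
  have := hc ![1, 0, 0]
  fin_cases i
  simpa [g1] using this

theorem lin_one (A : R k) : ∃ a b c : k,
    homogeneousComponent 1 A = a • X 0 + b • X 1 + c • X 2 := by
  have := homogeneousComponent_mem 1 A
  rw [homogeneousSubmodule_one_eq_span_X, Submodule.mem_span_range_iff_exists_fun] at this
  obtain ⟨c, hc⟩ := this
  exact ⟨c 0, c 1, c 2, by rw [← hc, Fin.sum_univ_three]⟩

theorem hI3 : hilb (II k) 3 ≤ 5 := by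
  refine hilb_le _ 3 5 ![X 0 * g1, X 1 * g1, X 2 * g1, X 1 * g2, X 2 * g2] fun p hp => ?_
  obtain ⟨A, B, rfl⟩ := Ideal.mem_span_pair.1 hp
  rw [map_add, hc_mul_right A _ hg1, hc_mul_right B _ hg2, if_pos (by norm_num),
    if_pos (by norm_num), Submodule.mem_span_range_iff_exists_fun]
  obtain ⟨a, b, c, h1⟩ := lin_one A
  obtain ⟨a', b', c', h2⟩ := lin_one B
  refine ⟨![a, b + a', c - a', b' + a', c'], ?_⟩
  rw [h1, h2]
  simp only [Fin.sum_univ_five, smul_eq_C_mul, g1, g2, Matrix.cons_val, map_add, map_sub]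
  ring

noncomputable def q (a0 a1 a2 b0 b1 b2 : k) : R k :=
  C a0 * (X 0 * X 0) + C a1 * (X 1 * X 1) + C a2 * (X 2 * X 2) + C b0 * (X 1 * X 2) +
    C b1 * (X 0 * X 2) + C b2 * (X 0 * X 1)

theorem hq (a0 a1 a2 b0 b1 b2 : k) : (q a0 a1 a2 b0 b1 b2).IsHomogeneous 2 := by
  have h : ∀ (a : k) (i j : Fin 3), (C a * (X i * X j) : R k).IsHomogeneous 2 :=
    fun a i j => ((hX i).mul (hX j)).C_mul a
  exact (((((h _ _ _).add (h _ _ _)).add (h _ _ _)).add (h _ _ _)).add (h _ _ _)).add (h _ _ _)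

section J

variable {J : Ideal (R k)} (hJ : Symm J)
include hJ

theorem sw01 {a0 a1 a2 b0 b1 b2 : k} (h : q a0 a1 a2 b0 b1 b2 ∈ J) :
    q a1 a0 a2 b1 b0 b2 ∈ J := by
  have := Ideal.mem_map_of_mem (rename (Equiv.swap (0 : Fin 3) 1)) h
  rw [hJ] at this
  convert this using 1
  have s1 : Equiv.swap (0 : Fin 3) 1 2 = 2 := by decide
  simp only [q, map_add, rename_C, map_mul, rename_X, Equiv.swap_apply_left,
    Equiv.swap_apply_right, s1]
  ring

theorem sw12 {a0 a1 a2 b0 b1 b2 : k} (h : q a0 a1 a2 b0 b1 b2 ∈ J) :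
    q a0 a2 a1 b0 b2 b1 ∈ J := by
  have := Ideal.mem_map_of_mem (rename (Equiv.swap (1 : Fin 3) 2)) h
  rw [hJ] at this
  convert this using 1
  have s1 : Equiv.swap (1 : Fin 3) 2 0 = 0 := by decide
  simp only [q, map_add, rename_C, map_mul, rename_X, Equiv.swap_apply_left,
    Equiv.swap_apply_right, s1]
  ring

omit hJ in
theorem six [CharZero k] (u v : R k) (hu : u ∈ J) (hv : v ∈ J) (hu2 : u.IsHomogeneous 2)
    (hv2 : v.IsHomogeneous 2)
    (h : ∀ c : Fin 6 → k, (∀ x y z : k, (c 0 * x + c 1 * y + c 2 * z) * eval ![x, y, z] u +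
      (c 3 * x + c 4 * y + c 5 * z) * eval ![x, y, z] v = 0) →
      c 0 = 0 ∧ c 1 = 0 ∧ c 2 = 0 ∧ c 3 = 0 ∧ c 4 = 0 ∧ c 5 = 0) : 6 ≤ hilb J 3 := by
  refine le_hilb J 3 6 ![X 0 * u, X 1 * u, X 2 * u, X 0 * v, X 1 * v, X 2 * v] ?_ ?_ ?_
  · intro i
    fin_cases i
    exacts [J.mul_mem_left _ hu, J.mul_mem_left _ hu, J.mul_mem_left _ hu, J.mul_mem_left _ hv,
      J.mul_mem_left _ hv, J.mul_mem_left _ hv]
  · intro i
    fin_cases i
    exacts [(hX _).mul hu2, (hX _).mul hu2, (hX _).mul hu2, (hX _).mul hv2, (hX _).mul hv2,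
      (hX _).mul hv2]
  · intro c hc i
    obtain ⟨h0, h1, h2, h3, h4, h5⟩ := h c fun x y z => by
      have := hc ![x, y, z]
      simp only [Fin.sum_univ_six, Matrix.cons_val, map_mul, eval_X] at this
      linear_combination this
    fin_cases i <;> assumption

theorem sq6 [CharZero k] (h : q 1 (-1) 0 0 0 0 ∈ J) : 6 ≤ hilb J 3 := by
  refine six _ _ h (sw12 hJ (sw01 hJ (sw12 hJ (sw01 hJ h)))) (hq ..) (hq ..) fun c hc => ?_
  simp only [q, map_add, map_mul, eval_C, eval_X, Matrix.cons_val] at hc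
  have h0 := hc 1 0 0
  have h1 := hc 0 0 1
  have h2 := hc 0 1 0
  have h3 := hc 1 1 0
  have h4 := hc 1 (-1) 0
  have h5 := hc 0 1 1
  norm_num at h0 h1 h2 h3 h4 h5
  grind

theorem mx6 [CharZero k] (h : q 0 0 0 1 (-1) 0 ∈ J) : 6 ≤ hilb J 3 := by
  refine six _ _ h (sw12 hJ (sw01 hJ (sw12 hJ (sw01 hJ h)))) (hq ..) (hq ..) fun c hc => ?_
  simp only [q, map_add, map_mul, eval_C, eval_X, Matrix.cons_val] at hc
  have h0 := hc 1 1 0
  have h1 := hc 1 (-1) 0
  have h2 := hc 0 1 1
  have h3 := hc 0 1 (-1)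
  have h4 := hc 1 1 (-1)
  have h5 := hc 1 (-1) (-1)
  norm_num at h0 h1 h2 h3 h4 h5
  grind

theorem sq6' [CharZero k] {a0 a1 a2 : k} (h : q a0 a1 a2 0 0 0 ∈ J) (hn : a0 ≠ a1) :
    6 ≤ hilb J 3 := by
  apply sq6 hJ
  have := J.mul_mem_left (C (a0 - a1)⁻¹) (sub_mem h (sw01 hJ h))
  convert this using 1
  have e : (C (a0 - a1)⁻¹ : R k) * (C a0 - C a1) = 1 := by
    rw [← map_sub, ← map_mul, inv_mul_cancel₀ (sub_ne_zero.2 hn), map_one]
  simp only [q, map_one, map_neg, map_zero]
  linear_combination (X 1 * X 1 - X 0 * X 0) * e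

theorem mx6' [CharZero k] {a0 a1 a2 : k} (h : q 0 0 0 a0 a1 a2 ∈ J) (hn : a0 ≠ a1) :
    6 ≤ hilb J 3 := by
  apply mx6 hJ
  have := J.mul_mem_left (C (a0 - a1)⁻¹) (sub_mem h (sw01 hJ h))
  convert this using 1
  have e : (C (a0 - a1)⁻¹ : R k) * (C a0 - C a1) = 1 := by
    rw [← map_sub, ← map_mul, inv_mul_cancel₀ (sub_ne_zero.2 hn), map_one]
  simp only [q, map_one, map_neg, map_zero]
  linear_combination (X 0 * X 2 - X 1 * X 2) * e

theorem three {a b0 b1 b2 : k} (h : q a 0 0 b0 b1 b2 ∈ J) (ha : a ≠ 0) : 3 ≤ hilb J 2 := by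
  refine le_hilb J 2 3 ![q a 0 0 b0 b1 b2, q 0 a 0 b1 b0 b2, q 0 0 a b1 b2 b0] ?_ ?_ ?_
  · intro i
    fin_cases i
    exacts [h, sw01 hJ h, sw12 hJ (sw01 hJ h)]
  · intro i
    fin_cases i
    exacts [hq .., hq .., hq ..]
  · intro c hc i
    have h0 := hc ![1, 0, 0]
    have h1 := hc ![0, 1, 0]
    have h2 := hc ![0, 0, 1]
    simp [Fin.sum_univ_three, q, ha] at h0 h1 h2
    fin_cases i <;> assumption

theorem cases_q [CharZero k] {a0 a1 a2 b0 b1 b2 : k} (h : q a0 a1 a2 b0 b1 b2 ∈ J)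
    (hne : q a0 a1 a2 b0 b1 b2 ≠ 0) (ha : a0 = 0 ∨ a1 = 0 ∨ a2 = 0)
    (hb : b0 = 0 ∨ b1 = 0 ∨ b2 = 0)
    (hab : (b0 ≠ 0 ∨ b1 ≠ 0 ∨ b2 ≠ 0) →
      (a0 = 0 ∨ a1 = 0) ∧ (a0 = 0 ∨ a2 = 0) ∧ (a1 = 0 ∨ a2 = 0)) :
    3 ≤ hilb J 2 ∨ 6 ≤ hilb J 3 := by
  by_cases hb0 : b0 ≠ 0 ∨ b1 ≠ 0 ∨ b2 ≠ 0
  · obtain ⟨h01, h02, h12⟩ := hab hb0
    by_cases e0 : a0 = 0
    · by_cases e1 : a1 = 0
      · by_cases e2 : a2 = 0
        · subst e0 e1 e2
          right
          by_cases f : b0 = b1
          · refine mx6' hJ (sw12 hJ h) ?_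
            grind
          · exact mx6' hJ h f
        · subst e0 e1
          exact Or.inl (three hJ (sw01 hJ (sw12 hJ h)) e2)
      · have e2 := h12.resolve_left e1
        subst e0 e2
        exact Or.inl (three hJ (sw01 hJ h) e1)
    · have e1 := h01.resolve_left e0
      have e2 := h02.resolve_left e0
      subst e1 e2
      exact Or.inl (three hJ h e0)
  · push Not at hb0
    obtain ⟨rfl, rfl, rfl⟩ := hb0
    right
    by_cases f : a0 = a1
    · refine sq6' hJ (sw12 hJ h) fun f' => hne ?_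
      have : a0 = 0 ∧ a1 = 0 ∧ a2 = 0 := by grind
      obtain ⟨rfl, rfl, rfl⟩ := this
      simp [q]
    · exact sq6' hJ h f

end J

noncomputable def M (a b c : ℕ) : Fin 3 →₀ ℕ := Finsupp.equivFunOnFinite.symm ![a, b, c]

theorem M_inj {a b c a' b' c' : ℕ} : M a b c = M a' b' c' ↔ a = a' ∧ b = b' ∧ c = c' := by
  simp [M]

theorem mon_M (a b c : ℕ) (r : k) :
    (monomial (M a b c) r : R k) = C r * (X 0 ^ a * X 1 ^ b * X 2 ^ c) := by
  rw [monomial_eq, Finsupp.prod_fintype _ _ (by simp), Fin.prod_univ_three]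
  simp [M]

theorem eq_q (w : R k) (hw : w.IsHomogeneous 2) :
    w = q (coeff (M 2 0 0) w) (coeff (M 0 2 0) w) (coeff (M 0 0 2) w) (coeff (M 0 1 1) w)
      (coeff (M 1 0 1) w) (coeff (M 1 1 0) w) := by
  have e : ∀ a0 a1 a2 b0 b1 b2 : k, q a0 a1 a2 b0 b1 b2 = monomial (M 2 0 0) a0 +
      monomial (M 0 2 0) a1 + monomial (M 0 0 2) a2 + monomial (M 0 1 1) b0 +
      monomial (M 1 0 1) b1 + monomial (M 1 1 0) b2 := by
    intros
    simp only [q, mon_M]
    ring
  ext d
  by_cases hd : d.degree = 2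
  · have hd' : d = M (d 0) (d 1) (d 2) := by
      ext i
      fin_cases i <;> simp [M]
    have hs : d 0 + d 1 + d 2 = 2 := by
      rwa [Finsupp.degree_eq_sum, Fin.sum_univ_three] at hd
    rw [e, hd']
    generalize d 0 = x at hs
    generalize d 1 = y at hs
    generalize d 2 = z at hs
    have : (x = 2 ∧ y = 0 ∧ z = 0) ∨ (x = 0 ∧ y = 2 ∧ z = 0) ∨ (x = 0 ∧ y = 0 ∧ z = 2) ∨
      (x = 0 ∧ y = 1 ∧ z = 1) ∨ (x = 1 ∧ y = 0 ∧ z = 1) ∨ (x = 1 ∧ y = 1 ∧ z = 0) := by omega
    rcases this with h | h | h | h | h | h <;> obtain ⟨rfl, rfl, rfl⟩ := h <;>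
      simp [coeff_monomial, M_inj]
  · rw [hw.coeff_eq_zero hd, (hq ..).coeff_eq_zero hd]

theorem tri (w : R k) (hw : w.support.card ≤ 2) (a b c : Fin 3 →₀ ℕ) (hab : a ≠ b) (hac : a ≠ c)
    (hbc : b ≠ c) : coeff a w = 0 ∨ coeff b w = 0 ∨ coeff c w = 0 := by
  classical
  by_contra h
  push Not at h
  have : ({a, b, c} : Finset (Fin 3 →₀ ℕ)) ⊆ w.support := by
    intro x hx
    simp only [Finset.mem_insert, Finset.mem_singleton] at hx
    rcases hx with rfl | rfl | rfl <;> simp [h.1, h.2.1, h.2.2]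
  have h2 := Finset.card_le_card this
  rw [Finset.card_eq_three.2 ⟨a, b, c, hab, hac, hbc, rfl⟩] at h2
  omega

theorem zero_of_hilb (J : Ideal (R k)) (hJ : Homog J) (d : ℕ) (h : hilb J d = 0) (p : R k)
    (hp : p ∈ J) : homogeneousComponent d p = 0 := by
  have := Submodule.finrank_eq_zero.1 h
  rw [Submodule.eq_bot_iff] at this
  exact this _ ⟨hJ p hp d, homogeneousComponent_mem d p⟩

theorem result (k : Type) [Field k] [CharZero k] :
    ∃ (n : ℕ) (I : Ideal (MvPolynomial (Fin n) k)), Homog I ∧ Symm I ∧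
      (∀ G, MinGen I G → ∀ f ∈ G, ¬ KSym f) ∧ (∀ G, MinCard I G → ∀ f ∈ G, ¬ KSym f) ∧
      ∀ J : Ideal (MvPolynomial (Fin n) k), Homog J → Symm J →
        (∃ S, (∀ s ∈ S, s.support.card ≤ 2) ∧ Ideal.span S = J) →
        ∃ d, hilb I d ≠ hilb J d := by
  refine ⟨3, II k, homogI, symmI, minGen_ok, minCard_ok, ?_⟩
  rintro J hH hS ⟨S, hS2, hSJ⟩
  by_contra hc
  push Not at hc
  have hSm : ∀ s ∈ S, s ∈ J := fun s hs => hSJ ▸ Ideal.subset_span hs
  have z0 := zero_of_hilb J hH 0 (by rw [← hc, hI0])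
  have z1 := zero_of_hilb J hH 1 (by rw [← hc, hI1])
  have ex : ∃ s ∈ S, homogeneousComponent 2 s ≠ 0 := by
    by_contra hn
    push Not at hn
    have := hilb_le J 2 0 ![] fun p hp =>
      (span_two S _ (fun s hs => ⟨z0 s (hSm s hs), z1 s (hSm s hs),
        by rw [hn s hs]; exact zero_mem _⟩) p (hSJ ▸ hp)).2.2
    have h1 := hI2' (k := k)
    rw [hc] at h1
    omega
  obtain ⟨s, hs, hs0⟩ := ex
  set w := homogeneousComponent 2 s with hw
  have hwJ : w ∈ J := hH s (hSm s hs) 2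
  have hw2 : w.IsHomogeneous 2 := homogeneousComponent_isHomogeneous 2 s
  have hcard : w.support.card ≤ 2 := by
    rw [hw, support_homogeneousComponent]
    exact (Finset.card_filter_le _ _).trans (hS2 s hs)
  have T := tri w hcard
  have key := cases_q hS (eq_q w hw2 ▸ hwJ) (eq_q w hw2 ▸ hs0)
    (T _ _ _ (by simp [M_inj]) (by simp [M_inj]) (by simp [M_inj]))
    (T _ _ _ (by simp [M_inj]) (by simp [M_inj]) (by simp [M_inj])) (by
      have T' : ∀ b, b ≠ M 2 0 0 → b ≠ M 0 2 0 → b ≠ M 0 0 2 → coeff b w ≠ 0 →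
          (coeff (M 2 0 0) w = 0 ∨ coeff (M 0 2 0) w = 0) ∧
          (coeff (M 2 0 0) w = 0 ∨ coeff (M 0 0 2) w = 0) ∧
          (coeff (M 0 2 0) w = 0 ∨ coeff (M 0 0 2) w = 0) := fun b h0 h1 h2 hb =>
        ⟨(T b _ _ h0 h1 (by simp [M_inj])).resolve_left hb,
          (T b _ _ h0 h2 (by simp [M_inj])).resolve_left hb,
          (T b _ _ h1 h2 (by simp [M_inj])).resolve_left hb⟩
      rintro (h | h | h) <;>
        exact T' _ (by simp [M_inj]) (by simp [M_inj]) (by simp [M_inj]) h)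
  have h2 := hI2 (k := k)
  have h3 := hI3 (k := k)
  rw [hc] at h2 h3
  omega

end Pool.Agent.Results.MP_f9b6b5_al.NoBinomial
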